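import Pool.Agent.Helper35.HG.StB

/-!
# Module INB of project HG: the region at the initial time
-/

set_option autoImplicit false

namespace Helper57.HG

open Helper35.HG Helper35.HC Helper35.HSF Helper35.MS Helper35.PI Helper35.PI2 Helper32.CL
open scoped ContDiff Manifold Topology ENNReal BigOperators
open MeasureTheory Set Filter

private theorem scal {E e V K2 τ x a b c : ℝ} (hE : 0 < E) (he : 0 ≤ e) (hK : 0 ≤ K2)
    (hx0 : 0 ≤ x) (hxτ : x ≤ τ) (hτ : τ < 1 / 3)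
    (hV : (1 + E) / 3 - E * x + K2 * e * (1 / 3 - x) ≤ V)
    (ha : a ≤ τ) (hb : b ≤ E * (τ - x)) (hc : c ≤ K2 * (τ - x)) :
    a + b + (1 / 3 + 2 * τ) * (e * c) - (1 / 3 + 2 * τ) * V < 0 := by
  have hl : 0 < 1 / 3 + 2 * τ := by linarith
  have h1 : (1 / 3 + 2 * τ) * (e * c) ≤ (1 / 3 + 2 * τ) * (e * (K2 * (τ - x))) :=
    mul_le_mul_of_nonneg_left (mul_le_mul_of_nonneg_left hc he) hl.le
  have h2 : (1 / 3 + 2 * τ) * ((1 + E) / 3 - E * x + K2 * e * (1 / 3 - x)) ≤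
      (1 / 3 + 2 * τ) * V := mul_le_mul_of_nonneg_left hV hl.le
  have h3 : 0 < (1 + E) * (1 / 3 - τ) := mul_pos (by linarith) (by linarith)
  have h4 : 0 ≤ E * x * (1 / 3 - τ) := mul_nonneg (mul_nonneg hE.le hx0) (by linarith)
  have h5 : 0 ≤ (1 / 3 + 2 * τ) * (K2 * e * (1 / 3 - τ)) :=
    mul_nonneg hl.le (mul_nonneg (mul_nonneg hK he) (by linarith))
  nlinarith [h1, h2, h3, h4, h5]

theorem hINB (hINN : StINN) (hPBN : StPBN) (hPBR : StPBR) (hSPN : StSPN) (hGCH : StGCH)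
    (hC1 : StC1) : StINB := by
  intro n N k hN p hp M _ _ _ J F hS t τ ht hτ hb q z hz
  have h0 : 0 < rr n t := hS.r0 t ht
  have hn1 : 1 ≤ n := le_trans (by norm_num) hp.n16
  have hn0 : (0 : ℝ) < n := by exact_mod_cast hn1
  obtain ⟨L, hL⟩ := hC1 n N
    (fun i => dv1 (loc (n := n) F q t) (chartAt (EE n) q q) i) (hS.mcf.imm q t ht)
  obtain ⟨u, θ, hG, -, -⟩ := hGCH n N M J F hS.mcf q t ht L hL
  obtain ⟨-, -, hp3⟩ := hPBR n N M J F hS.mcf.toIsImmJ q t ht L u θ hG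
    (jgg u (0, t)) (jggg u (0, t)) rfl rfl
  obtain ⟨hp1, -⟩ := hPBN n N hn1 M J F hS q t ht L u θ hG
    (jgg u (0, t)) (jggg u (0, t)) rfl rfl
  obtain ⟨hAS, -, -, -, -, -, -, hth, hx, -, -⟩ :=
    hSPN n N hn1 M J F hS q t ht L u θ hG (jgg u (0, t)) (jggg u (0, t)) rfl rfl
  obtain ⟨P, Q, ν, β, α, χ, hOP, hUN, hzv, -⟩ := hp1 z hz
  have hr : 0 < 1 / rr n t := by positivity
  obtain ⟨g1, g2, g3, g4⟩ := hINN n N k hN (le_trans (by norm_num) hp.n16)
    (jgg u (0, t)) (1 / rr n t) L (F q t) hAS τ (by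
      intro c hc
      obtain ⟨c', h1, h2⟩ := hp3 c hc
      rw [← h2]
      have h3 := hb q c' h1
      rw [mul_one_div, le_div_iff₀ h0]
      linarith) (xN n F q t) hx
  obtain ⟨g5, g6, g7⟩ := g4 ν hUN
  have hX0 : 0 ≤ rr n t * z.2.2 / n ^ 2 := by
    rw [hzv]
    positivity
  have hXx : rr n t * z.2.2 / n ^ 2 ≤ xN n F q t := by
    have e1 : rr n t * z.2.2 / n ^ 2 =
        (inner ℝ (Hv (jgg u (0, t))) ν : ℝ) ^ 2 / (n ^ 2 * (1 / rr n t)) := by
      rw [hzv]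
      field_simp
    rw [e1]
    exact g6
  have ha : rr n t * z.1 ≤ τ := by
    have h1 : z.1 ≤ τ * (1 / rr n t) := by
      rw [hzv]
      exact g7 P Q hOP
    calc rr n t * z.1 ≤ rr n t * (τ * (1 / rr n t)) := mul_le_mul_of_nonneg_left h1 h0.le
      _ = τ := by field_simp
  have hE := hp.E0
  have hbb : rr n t * (p.E / n * z.2.1) ≤ p.E * (τ - xN n F q t) := by
    have h1 : z.2.1 ≤ n * ((τ - xN n F q t) * (1 / rr n t)) := by
      rw [hzv]
      exact g5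
    calc rr n t * (p.E / n * z.2.1)
        ≤ rr n t * (p.E / n * (n * ((τ - xN n F q t) * (1 / rr n t)))) :=
          mul_le_mul_of_nonneg_left (mul_le_mul_of_nonneg_left h1 (by positivity)) h0.le
      _ = p.E * (τ - xN n F q t) := by field_simp
  have hc : rr n t * thN n F q t / n ≤ ((k : ℝ) + 2) * (τ - xN n F q t) := by
    have h1 : thN n F q t ≤ ((k : ℝ) + 2) * (n * ((τ - xN n F q t) * (1 / rr n t))) := by
      rw [hth]
      exact g3
    calc rr n t * thN n F q t / n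
        ≤ rr n t * (((k : ℝ) + 2) * (n * ((τ - xN n F q t) * (1 / rr n t)))) / n := by
          gcongr
      _ = ((k : ℝ) + 2) * (τ - xN n F q t) := by field_simp
  have hV := hp.ini (rr n t * z.2.2 / n ^ 2) (xN n F q t) hX0 hXx (by linarith)
  have key := scal hE (hp.e0 (xN n F q t) g1) (by positivity : (0 : ℝ) ≤ (k : ℝ) + 2) g1 g2 hτ
    hV ha hbb hc
  have e2 : RgF n p (1 / 3 + 2 * τ) F q t z = rr n t * z.1 + rr n t * (p.E / n * z.2.1)
      + (1 / 3 + 2 * τ) * (p.e (xN n F q t) * (rr n t * thN n F q t / n))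
      - (1 / 3 + 2 * τ) * (p.J (rr n t * z.2.2 / n ^ 2) + p.P (xN n F q t)) := by
    unfold RgF
    ring
  rw [e2]
  exact key

end Helper57.HG
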