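import Pool.Agent.Helper80.HG.St

/-!
Project HG (MP_1bacb5_al): module SB.  Basic facts on small actions.
-/

set_option autoImplicit false

namespace Pool.Agent.Helper57.HG

open Pool.Agent.Helper80.HG Filter Topology Asymptotics
open scoped commutatorElement

private theorem key {H : Set (ℝ → ℝ)} (hB : Bas H) {Γ : Type} [Group Γ] {θ : Γ → ℝ → ℝ}
    (hR : RB H θ) (hs : Sml θ) (g h : Γ) :
    (fun z => dsp θ g (θ h z) - dsp θ g z) =o[atTop] dsp θ h := by
  obtain ⟨D', hD', hder⟩ := hB.deriv (dsp θ g) (hR.dmem g)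
  have hlim : Tendsto D' atTop (𝓝 0) := hB.dlim (dsp θ g) (hR.dmem g) 0 D' (hs g) hder
  rw [isLittleO_iff]
  intro c hc
  have h1 : ∀ᶠ x in atTop, ‖D' x‖ ≤ c := by
    have h2 := (tendsto_zero_iff_norm_tendsto_zero.1 hlim).eventually (gt_mem_nhds hc)
    exact h2.mono fun x hx => hx.le
  obtain ⟨M, hM⟩ := eventually_atTop.1 (hder.and h1)
  have h3 : ∀ᶠ z in atTop, M ≤ θ h z := (hR.top h).eventually (eventually_ge_atTop M)
  filter_upwards [h3, eventually_ge_atTop M] with z hz1 hz2
  have h4 := (convex_Ici M).norm_image_sub_le_of_norm_hasDerivWithin_le (f := dsp θ g) (f' := D')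
    (C := c) (x := z) (y := θ h z)
    (fun x hx => (hM x hx).1.hasDerivWithinAt) (fun x hx => (hM x hx).2) hz2 hz1
  exact h4

private theorem one_dsp {H : Set (ℝ → ℝ)} {Γ : Type} [Group Γ] {θ : Γ → ℝ → ℝ}
    (hR : RB H θ) : dsp θ 1 =ᶠ[atTop] fun _ => (0 : ℝ) := by
  filter_upwards [hR.one] with x hx
  simp [dsp, hx]

private theorem add_aux {H : Set (ℝ → ℝ)} (hB : Bas H) {Γ : Type} [Group Γ] {θ : Γ → ℝ → ℝ}
    (hR : RB H θ) (hs : Sml θ) (g h : Γ) :
    (fun x => dsp θ (g * h) x - dsp θ g x - dsp θ h x) =o[atTop] dsp θ h := by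
  refine (key hB hR hs g h).congr' ?_ (EventuallyEq.refl _ _)
  filter_upwards [hR.mul g h] with x hx
  simp only [dsp, hx]
  ring

private theorem invd_aux {H : Set (ℝ → ℝ)} (hB : Bas H) {Γ : Type} [Group Γ] {θ : Γ → ℝ → ℝ}
    (hR : RB H θ) (hs : Sml θ) (g : Γ) :
    (fun x => dsp θ g⁻¹ x + dsp θ g x) =o[atTop] dsp θ g := by
  have h1 : (fun x => -(dsp θ g⁻¹ x + dsp θ g x)) =o[atTop] dsp θ g⁻¹ := by
    refine (add_aux hB hR hs g g⁻¹).congr' ?_ (EventuallyEq.refl _ _)
    filter_upwards [one_dsp hR] with x hx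
    rw [mul_inv_cancel, hx]
    ring
  have h2 : dsp θ g⁻¹ =O[atTop] fun x => -(dsp θ g⁻¹ x + dsp θ g x) + dsp θ g⁻¹ x :=
    h1.right_isBigO_add
  have h3 : dsp θ g⁻¹ =O[atTop] dsp θ g := by
    have h4 : (fun x => -(dsp θ g⁻¹ x + dsp θ g x) + dsp θ g⁻¹ x) = fun x => -(dsp θ g x) := by
      funext x; ring
    rw [h4] at h2
    exact h2.trans (isBigO_refl (dsp θ g) atTop).neg_left
  have h5 := (h1.trans_isBigO h3).neg_left
  simpa using h5

theorem hSB : StSB := by
  intro H hB Γ _ θ hR hs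
  have hadd := add_aux hB hR hs
  have hinv := invd_aux hB hR hs
  refine
    { toRB := hR
      sml := hs
      ps := ?_
      psu := ?_
      add := hadd
      invd := hinv
      big := ?_
      lit := ?_
      conj := ?_ }
  · intro g hg
    have hpos : ∀ᶠ x in atTop, 0 < dsp θ g x := by
      filter_upwards [hg] with x hx
      simp only [dsp]
      linarith
    obtain ⟨h1, h2⟩ := hB.nlog (dsp θ g) (hR.dmem g) hpos (hs g)
    refine ⟨fun x => -Real.log (dsp θ g x), h1, h2, ?_⟩
    filter_upwards [hpos] with x hx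
    rw [neg_neg, Real.exp_log hx]
  · intro g L L' hL hL'
    filter_upwards [hL.2.2, hL'.2.2] with x hx hx'
    have h1 := Real.exp_injective (hx.symm.trans hx')
    linarith
  · intro F
    refine ⟨{ carrier := {g | dsp θ g =O[atTop] F}, mul_mem' := ?_, one_mem' := ?_,
              inv_mem' := ?_ }, fun g => Iff.rfl⟩
    · intro g h hg hh
      have h1 := (((hadd g h).isBigO.trans hh).add hg).add hh
      refine h1.congr_left fun x => ?_
      ring
    · exact (isBigO_zero F atTop).congr' (one_dsp hR).symm (EventuallyEq.refl _ _)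
    · intro g hg
      have h1 := ((hinv g).isBigO.trans hg).sub hg
      refine h1.congr_left fun x => ?_
      ring
  · intro F
    refine ⟨{ carrier := {g | dsp θ g =o[atTop] F}, mul_mem' := ?_, one_mem' := ?_,
              inv_mem' := ?_ }, fun g => Iff.rfl⟩
    · intro g h hg hh
      have h1 := (((hadd g h).trans_isBigO hh.isBigO).add hg).add hh
      refine h1.congr_left fun x => ?_
      ring
    · exact (isLittleO_zero F atTop).congr' (one_dsp hR).symm (EventuallyEq.refl _ _)
    · intro g hg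
      have h1 := ((hinv g).trans_isBigO hg.isBigO).sub hg
      refine h1.congr_left fun x => ?_
      ring
  · intro g x
    refine (key hB hR hs g x).congr' ?_ (EventuallyEq.refl _ _)
    filter_upwards [hR.mul (g * x * g⁻¹) g, hR.mul g x] with z h1 h2
    have h3 : g * x * g⁻¹ * g = g * x := by group
    rw [h3] at h1
    simp only [dsp, ← h1, h2]
    ring

end Pool.Agent.Helper57.HG
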